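import Mathlib
import Pool.Agent.V11326.OrdUpper
import Pool.Agent.V11326.OrdLower
import Pool.Agent.Results.MP_d24be6_pr.NonHarmoniousTheta

/-!
# Adding non-collectable patterns to pairwise non-harmonious collectable patterns

For every `r ≥ 1`, every set `Ps` of pairwise non-harmonious collectable `r`-patterns and every set
`Qs` of non-collectable `r`-patterns, the largest `Ps`-clique and the largest `Ps ∪ Qs`-clique of a
uniformly random ordered `r`-matching of size `n` have asymptotically almost surely the same order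
of magnitude.

Vertices are natural numbers, an edge is a finite set of vertices, an ordered `r`-matching of size
`n` on `{0, …, rn-1}` is a family of `n` pairwise disjoint `r`-subsets of it, and a pattern is given
by the set of positions (counted from `0`) of its letters `A`; see `Pool.Agent.V11326.OrdPat` for
`pos`, `IsPattern`, `Forms`, `IsMatching`, `IsClique`, `Collectable`, `SplitsAt`, `Harmonious` and
`Pool.Agent.V11326.OrdUpper` for `matchings` and `zmax`.
-/

set_option autoImplicit false

namespace Pool.Agent.Results.MP_0c785e_pr.NonHarmoniousCollectable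

open Finset Pool.Agent.V11326.OrdPat Pool.Agent.V11326.OrdUpper Filter
open scoped Topology

/-- Cliques over non-collectable patterns have bounded size. -/
theorem bounded {r : ℕ} (Qs : Finset (Finset ℕ)) (hQ : ∀ Q ∈ Qs, ¬ Collectable r Q) :
    ∃ N : ℕ, ∀ S : Finset (Finset ℕ), IsMatching r S → IsClique Qs S → S.card ≤ N := by
  classical
  have hm0 : ∀ Q : Finset ℕ, ∃ m : ℕ, Q ∈ Qs →
      ∀ S : Finset (Finset ℕ), IsMatching r S → S.card = m → ¬ IsClique {Q} S := by
    intro Q
    by_cases hc : Q ∈ Qs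
    · have h1 := hQ Q hc
      unfold Collectable at h1
      push Not at h1
      obtain ⟨m, hm⟩ := h1
      exact ⟨m, fun _ => hm⟩
    · exact ⟨0, fun h => absurd h hc⟩
  choose m hm using hm0
  obtain ⟨N, hN⟩ := Pool.Agent.V11326.ProdRamsey.ramsey (C := Option {Q : Finset ℕ // Q ∈ Qs}) (Qs.sup m + 2)
  refine ⟨N, ?_⟩
  intro S hS hSc
  by_contra hlt
  rw [not_le] at hlt
  -- enumerate `S`
  let g : ℕ → Finset ℕ := fun i => if h : i < S.card then (S.equivFin.symm ⟨i, h⟩ : Finset ℕ) else ∅
  have hg : ∀ i, i < S.card → g i ∈ S := by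
    intro i hi
    have : g i = (S.equivFin.symm ⟨i, hi⟩ : Finset ℕ) := by simp only [g, hi, dif_pos]
    rw [this]
    exact (S.equivFin.symm ⟨i, hi⟩).2
  have hginj : ∀ i j, i < S.card → j < S.card → g i = g j → i = j := by
    intro i j hi hj hij
    have h1 : g i = (S.equivFin.symm ⟨i, hi⟩ : Finset ℕ) := by simp only [g, hi, dif_pos]
    have h2 : g j = (S.equivFin.symm ⟨j, hj⟩ : Finset ℕ) := by simp only [g, hj, dif_pos]
    rw [h1, h2] at hij
    have h3 := S.equivFin.symm.injective (Subtype.ext hij)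
    exact congrArg Fin.val h3
  let χ : ℕ → ℕ → Option {Q : Finset ℕ // Q ∈ Qs} := fun i j =>
    if h : ∃ Q : {Q : Finset ℕ // Q ∈ Qs}, Forms Q.1 (g i) (g j) then some h.choose else none
  obtain ⟨f, hf, hfN, c, hc⟩ := hN χ
  have hfS : ∀ i, f i < S.card := fun i => (hfN i).trans hlt
  have hpair : ∀ i j, i < j → ∃ Q : {Q : Finset ℕ // Q ∈ Qs}, Forms Q.1 (g (f i)) (g (f j)) := by
    intro i j hij
    have hne : g (f i) ≠ g (f j) := by
      intro h
      exact (hf hij).ne (hginj _ _ (hfS i) (hfS j) h)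
    obtain ⟨Q, hQ1, hQ2⟩ := hSc _ (hg _ (hfS i)) _ (hg _ (hfS j)) hne
    exact ⟨⟨Q, hQ1⟩, hQ2⟩
  -- the colour is a pattern
  have h01 : (⟨0, by omega⟩ : Fin (Qs.sup m + 2)) < ⟨1, by omega⟩ := by
    rw [Fin.lt_def]; exact Nat.zero_lt_one
  have hχ : ∀ i j, i < j → ∃ Q : {Q : Finset ℕ // Q ∈ Qs},
      χ (f i) (f j) = some Q ∧ Forms Q.1 (g (f i)) (g (f j)) := by
    intro i j hij
    refine ⟨(hpair i j hij).choose, ?_, (hpair i j hij).choose_spec⟩
    simp only [χ]
    rw [dif_pos (hpair i j hij)]
  obtain ⟨Q, hQc, _⟩ := hχ _ _ h01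
  have hcQ : c = some Q := by rw [← hQc]; exact (hc _ _ h01).symm
  have hforms : ∀ i j, i < j → Forms Q.1 (g (f i)) (g (f j)) := by
    intro i j hij
    obtain ⟨Q', h1, h2⟩ := hχ i j hij
    rw [hc i j hij, hcQ] at h1
    have h3 : Q = Q' := Option.some.inj h1
    rw [h3]; exact h2
  have hle : m Q.1 ≤ Qs.sup m := le_sup (f := m) Q.2
  have hinj : Function.Injective (fun i => g (f i)) := by
    intro i j hij
    exact hf.injective (hginj _ _ (hfS i) (hfS j) hij)
  have hcard : (univ.image (fun i : Fin (Qs.sup m + 2) => g (f i))).card = Qs.sup m + 2 := by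
    rw [card_image_of_injective _ hinj, card_univ, Fintype.card_fin]
  obtain ⟨T, hT, hTc⟩ := Finset.exists_subset_card_eq
    (s := univ.image (fun i : Fin (Qs.sup m + 2) => g (f i))) (n := m Q.1) (by omega)
  apply hm Q.1 Q.2 T _ hTc
  · intro E hE F hF hEF
    obtain ⟨a, _, rfl⟩ := mem_image.mp (hT hE)
    obtain ⟨b, _, rfl⟩ := mem_image.mp (hT hF)
    refine ⟨Q.1, mem_singleton_self _, ?_⟩
    rcases lt_trichotomy a b with h1 | h1 | h1
    · exact hforms a b h1
    · exact absurd (by rw [h1]) hEF
    · exact (hforms b a h1).symm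
  · have hTS : T ⊆ S := by
      intro E hE
      obtain ⟨a, _, rfl⟩ := mem_image.mp (hT hE)
      exact hg _ (hfS a)
    exact ⟨fun E hE => hS.1 E (hTS hE), fun E hE F hF h => hS.2 E (hTS hE) F (hTS hF) h⟩

open Classical in
/-- **Main theorem.** Let `r ≥ 1`, let `Ps` be a set of pairwise non-harmonious collectable
`r`-patterns and let `Qs` be a set of non-collectable `r`-patterns. There is a constant `c > 0` such
that the probability that a uniformly random ordered `r`-matching `M` of size `n` satisfies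
`c · zmax (Ps ∪ Qs) M ≤ zmax Ps M` tends to `1` as `n → ∞`. -/
theorem result (r : ℕ) (hr : 1 ≤ r) (Ps Qs : Finset (Finset ℕ))
    (hP : ∀ P ∈ Ps, IsPattern r P ∧ Collectable r P)
    (hnh : ∀ P ∈ Ps, ∀ P' ∈ Ps, P ≠ P' → ¬ Harmonious r P P')
    (hQ : ∀ Q ∈ Qs, IsPattern r Q ∧ ¬ Collectable r Q) :
    ∃ c : ℝ, 0 < c ∧ Tendsto (fun n : ℕ =>
      (((matchings r n).filter (fun M => c * (zmax (Ps ∪ Qs) M : ℝ) ≤ (zmax Ps M : ℝ))).card : ℝ)
        / ((matchings r n).card : ℝ)) atTop (𝓝 1) := by
  have hpos : ∀ n : ℕ, (0 : ℝ) < ((matchings r n).card : ℝ) := by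
    intro n
    obtain ⟨ω0⟩ : Nonempty (Om r n) := by
      refine ⟨Fintype.equivOfCardEq ?_⟩
      rw [Fintype.card_prod, Fintype.card_fin, Fintype.card_fin, Fintype.card_fin, mul_comm]
    exact_mod_cast card_pos.mpr ⟨_, MM_mem hr ω0⟩
  rcases Ps.eq_empty_or_nonempty with he | ⟨P, hPP⟩
  · -- no collectable pattern: bounded cliques
    subst he
    obtain ⟨N, hN⟩ := bounded Qs (fun Q hq => (hQ Q hq).2)
    refine ⟨1 / ((N : ℝ) + 1), by positivity, ?_⟩
    have hall : ∀ n : ℕ, 1 ≤ n → (matchings r n).filter (fun M => 1 / ((N : ℝ) + 1) *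
        (zmax (∅ ∪ Qs) M : ℝ) ≤ (zmax ∅ M : ℝ)) = matchings r n := by
      intro n hn
      apply filter_true_of_mem
      intro M hM
      unfold matchings at hM
      rw [mem_filter] at hM
      have h1 : zmax (∅ ∪ Qs) M ≤ N := by
        unfold zmax
        apply Finset.sup_le
        intro K hK
        rw [mem_filter, mem_powerset, empty_union] at hK
        exact hN K ⟨fun E hE => hM.2.1.1 E (hK.1 hE),
          fun E hE F hF h => hM.2.1.2 E (hK.1 hE) F (hK.1 hF) h⟩ hK.2
      have h2 : 1 ≤ zmax ∅ M := by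
        have hne : M.Nonempty := by rw [← card_pos, hM.2.2]; omega
        obtain ⟨E, hE⟩ := hne
        have h3 : ({E} : Finset (Finset ℕ)) ∈ M.powerset.filter (IsClique ∅) := by
          rw [mem_filter, mem_powerset, singleton_subset_iff]
          refine ⟨hE, ?_⟩
          intro F hF F' hF' hne
          rw [mem_singleton] at hF hF'
          exact absurd (hF.trans hF'.symm) hne
        have h4 := le_sup (f := card) h3
        rw [card_singleton] at h4
        unfold zmax
        exact h4
      have h1' : (zmax (∅ ∪ Qs) M : ℝ) ≤ N := by exact_mod_cast h1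
      have h2' : (1 : ℝ) ≤ zmax ∅ M := by exact_mod_cast h2
      have h5 : 1 / ((N : ℝ) + 1) * (zmax (∅ ∪ Qs) M : ℝ) ≤ 1 := by
        rw [one_div, inv_mul_le_iff₀ (by positivity)]
        linarith
      linarith
    refine (tendsto_const_nhds (x := (1 : ℝ))).congr' ?_
    filter_upwards [eventually_ge_atTop 1] with n hn
    rw [hall n hn, div_self (hpos n).ne']
  · obtain ⟨c, C0, hc, hC0, hlow⟩ :=
      Pool.Agent.Results.MP_d24be6_pr.NonHarmoniousTheta.result r hr Ps (fun P h => (hP P h).1) hnh
        ⟨P, hPP, (hP P hPP).2⟩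
    obtain ⟨C, hC, hup⟩ := upper r hr (Ps ∪ Qs)
      (fun P h => by
        rcases mem_union.mp h with h | h
        · exact (hP P h).1
        · exact (hQ P h).1)
      (fun P h P' h' hne => by
        rcases mem_union.mp h with h | h
        · rcases mem_union.mp h' with h' | h'
          · exact hnh P h P' h' hne
          · exact fun hh => (hQ P' h').2 hh.2.2.1
        · exact fun hh => (hQ P h).2 hh.2.1)
    refine ⟨c / C, by positivity, ?_⟩
    have hlim : Tendsto (fun n : ℕ =>
        (((matchings r n).filter (fun M => c * (n : ℝ) ^ ((1 : ℝ) / r) ≤ (zmax Ps M : ℝ) ∧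
          (zmax Ps M : ℝ) ≤ C0 * (n : ℝ) ^ ((1 : ℝ) / r))).card : ℝ)
        / ((matchings r n).card : ℝ) +
        (((matchings r n).filter (fun M => (zmax (Ps ∪ Qs) M : ℝ) ≤
          C * (n : ℝ) ^ ((1 : ℝ) / r))).card : ℝ) / ((matchings r n).card : ℝ) - 1)
        atTop (𝓝 1) := by
      have h1 := (hlow.add hup).sub_const 1
      have h2 : (1 : ℝ) + 1 - 1 = 1 := by norm_num
      rw [h2] at h1
      exact h1
    refine tendsto_of_tendsto_of_tendsto_of_le_of_le' hlim tendsto_const_nhds ?_ ?_
    · refine Eventually.of_forall (fun n => ?_)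
      set A := (matchings r n).filter (fun M => c * (n : ℝ) ^ ((1 : ℝ) / r) ≤ (zmax Ps M : ℝ) ∧
          (zmax Ps M : ℝ) ≤ C0 * (n : ℝ) ^ ((1 : ℝ) / r)) with hA
      set B := (matchings r n).filter (fun M => (zmax (Ps ∪ Qs) M : ℝ) ≤
          C * (n : ℝ) ^ ((1 : ℝ) / r)) with hB
      have h1 := card_union_add_card_inter A B
      have h2 : (A ∪ B).card ≤ (matchings r n).card :=
        card_le_card (union_subset (filter_subset _ _) (filter_subset _ _))
      have h3 : A ∩ B ⊆ (matchings r n).filter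
          (fun M => c / C * (zmax (Ps ∪ Qs) M : ℝ) ≤ (zmax Ps M : ℝ)) := by
        intro M hM
        rw [mem_inter, hA, hB, mem_filter, mem_filter] at hM
        rw [mem_filter]
        refine ⟨hM.1.1, ?_⟩
        calc c / C * (zmax (Ps ∪ Qs) M : ℝ) ≤ c / C * (C * (n : ℝ) ^ ((1 : ℝ) / r)) := by
              apply mul_le_mul_of_nonneg_left hM.2.2
              positivity
          _ = c * (n : ℝ) ^ ((1 : ℝ) / r) := by field_simp
          _ ≤ _ := hM.1.2.1
      have h4 := card_le_card h3
      have h5 : (A.card : ℝ) + B.card ≤ (matchings r n).card +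
          (((matchings r n).filter
          (fun M => c / C * (zmax (Ps ∪ Qs) M : ℝ) ≤ (zmax Ps M : ℝ))).card : ℝ) := by
        have : A.card + B.card ≤ (matchings r n).card + ((matchings r n).filter
          (fun M => c / C * (zmax (Ps ∪ Qs) M : ℝ) ≤ (zmax Ps M : ℝ))).card := by omega
        exact_mod_cast this
      rw [← add_div, sub_le_iff_le_add, div_le_iff₀ (hpos n), add_mul, one_mul,
        div_mul_cancel₀ _ (hpos n).ne']
      linarith
    · refine Eventually.of_forall (fun n => ?_)
      apply div_le_one_of_le₀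
      · exact_mod_cast card_filter_le _ _
      · positivity

end Pool.Agent.Results.MP_0c785e_pr.NonHarmoniousCollectable
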